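import Pool.Agent.Helper15_SIU.Stmts

/-!
# SIU, module WDG: the wedge product is bilinear, natural, smooth, bounded, preserves basic forms
-/

set_option autoImplicit false

namespace Pool.Agent.SIU.H18

open Pool.Agent.SIU

section

variable {N k l : ℕ}

theorem tensor_apply (a : Alt N k) (b : Alt N l) (v : Fin (k + l) → Fin N → ℂ) :
    tensor a b v = a (fun i => v (Fin.castAdd l i)) * b (fun j => v (Fin.natAdd k j)) := rfl

theorem wedge_apply (a : Alt N k) (b : Alt N l) (v : Fin (k + l) → Fin N → ℂ) :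
    wedge a b v = ((k.factorial * l.factorial : ℕ) : ℝ)⁻¹ *
      ∑ σ : Equiv.Perm (Fin (k + l)), ((Equiv.Perm.sign σ : ℤ) : ℝ) *
        (a (fun i => v (σ (Fin.castAdd l i))) * b (fun j => v (σ (Fin.natAdd k j)))) := by
  unfold wedge
  rw [ContinuousAlternatingMap.smul_apply, smul_eq_mul,
    ContinuousMultilinearMap.alternatization_apply_apply]
  congr 1
  refine Finset.sum_congr rfl fun σ _ => ?_
  rw [tensor_apply]
  simp only [Function.comp_apply]
  rw [Units.smul_def, zsmul_eq_mul]

theorem wedge_bound (a : Alt N k) (b : Alt N l) :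
    ‖wedge a b‖ ≤ (((k.factorial * l.factorial : ℕ) : ℝ)⁻¹ * ((k + l).factorial : ℕ)) *
      ‖a‖ * ‖b‖ := by
  refine ContinuousAlternatingMap.opNorm_le_bound _ (by positivity) fun v => ?_
  rw [wedge_apply, norm_mul, Real.norm_of_nonneg (by positivity)]
  have h1 : ‖∑ σ : Equiv.Perm (Fin (k + l)), ((Equiv.Perm.sign σ : ℤ) : ℝ) *
        (a (fun i => v (σ (Fin.castAdd l i))) * b (fun j => v (σ (Fin.natAdd k j))))‖ ≤
      ∑ σ : Equiv.Perm (Fin (k + l)), ‖a‖ * ‖b‖ * ∏ i, ‖v i‖ := by
    refine norm_sum_le_of_le _ fun σ _ => ?_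
    have h2 : ‖((Equiv.Perm.sign σ : ℤ) : ℝ)‖ = 1 := by
      rcases Int.units_eq_one_or (Equiv.Perm.sign σ) with h | h <;> rw [h] <;> simp
    rw [norm_mul, h2, one_mul, norm_mul]
    have h3 := a.le_opNorm (fun i => v (σ (Fin.castAdd l i)))
    have h4 := b.le_opNorm (fun j => v (σ (Fin.natAdd k j)))
    have h5 : ∏ i, ‖v i‖ = (∏ i, ‖v (σ (Fin.castAdd l i))‖) * ∏ j, ‖v (σ (Fin.natAdd k j))‖ := by
      rw [← Fin.prod_univ_add (fun i => ‖v (σ i)‖), Equiv.prod_comp σ (fun i => ‖v i‖)]
    rw [h5]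
    calc _ ≤ (‖a‖ * ∏ i, ‖v (σ (Fin.castAdd l i))‖) * (‖b‖ * ∏ j, ‖v (σ (Fin.natAdd k j))‖) :=
          mul_le_mul h3 h4 (norm_nonneg _) (by positivity)
      _ = _ := by ring
  rw [Finset.sum_const, Finset.card_univ, Fintype.card_perm, Fintype.card_fin, nsmul_eq_mul] at h1
  calc _ ≤ ((k.factorial * l.factorial : ℕ) : ℝ)⁻¹ *
        (((k + l).factorial : ℕ) * (‖a‖ * ‖b‖ * ∏ i, ‖v i‖)) :=
        mul_le_mul_of_nonneg_left h1 (by positivity)
    _ = _ := by ring

theorem wedge_add_left (a a' : Alt N k) (b : Alt N l) :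
    wedge (a + a') b = wedge a b + wedge a' b := by
  ext v
  rw [ContinuousAlternatingMap.add_apply, wedge_apply, wedge_apply, wedge_apply, ← mul_add,
    ← Finset.sum_add_distrib]
  congr 1
  refine Finset.sum_congr rfl fun σ _ => ?_
  rw [ContinuousAlternatingMap.add_apply]
  ring

theorem wedge_add_right (a : Alt N k) (b b' : Alt N l) :
    wedge a (b + b') = wedge a b + wedge a b' := by
  ext v
  rw [ContinuousAlternatingMap.add_apply, wedge_apply, wedge_apply, wedge_apply, ← mul_add,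
    ← Finset.sum_add_distrib]
  congr 1
  refine Finset.sum_congr rfl fun σ _ => ?_
  rw [ContinuousAlternatingMap.add_apply]
  ring

theorem wedge_smul_left (t : ℝ) (a : Alt N k) (b : Alt N l) :
    wedge (t • a) b = t • wedge a b := by
  ext v
  rw [ContinuousAlternatingMap.smul_apply, wedge_apply, wedge_apply, smul_eq_mul, ← mul_assoc t,
    mul_comm t, mul_assoc _ t]
  congr 1
  rw [Finset.mul_sum]
  refine Finset.sum_congr rfl fun σ _ => ?_
  rw [ContinuousAlternatingMap.smul_apply, smul_eq_mul]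
  ring

theorem wedge_smul_right (t : ℝ) (a : Alt N k) (b : Alt N l) :
    wedge a (t • b) = t • wedge a b := by
  ext v
  rw [ContinuousAlternatingMap.smul_apply, wedge_apply, wedge_apply, smul_eq_mul, ← mul_assoc t,
    mul_comm t, mul_assoc _ t]
  congr 1
  rw [Finset.mul_sum]
  refine Finset.sum_congr rfl fun σ _ => ?_
  rw [ContinuousAlternatingMap.smul_apply, smul_eq_mul]
  ring

theorem wedge_bilin : IsBoundedBilinearMap ℝ (fun p : Alt N k × Alt N l => wedge p.1 p.2) where
  add_left := wedge_add_left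
  smul_left := wedge_smul_left
  add_right := wedge_add_right
  smul_right := fun t a b => wedge_smul_right t a b
  bound := ⟨(((k.factorial * l.factorial : ℕ) : ℝ)⁻¹ * ((k + l).factorial : ℕ)), by positivity,
    wedge_bound⟩

end

/-- module WDG -/
theorem wdg : WdgStmt := by
  intro N k l
  refine ⟨wedge_add_left, wedge_add_right, fun t a b => ⟨wedge_smul_left t a b,
    wedge_smul_right t a b⟩, fun n L a b => ?_, fun m => wedge_bilin.contDiff,
    ⟨_, wedge_bound⟩, fun r n X V a b ha hb => ⟨fun z hz c hc v => ?_, fun z hz v i hv => ?_⟩⟩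
  · ext v
    rw [ContinuousAlternatingMap.compContinuousLinearMap_apply, wedge_apply, wedge_apply]
    rfl
  · simp only [wedge_apply]
    congr 1
    refine Finset.sum_congr rfl fun σ _ => ?_
    rw [ha.1 z hz c hc, hb.1 z hz c hc]
  · rw [wedge_apply, Finset.sum_eq_zero, mul_zero]
    intro σ _
    obtain ⟨i', rfl⟩ := σ.surjective i
    induction i' using Fin.addCases with
    | left i' => rw [ha.2 z hz (fun i => v (σ (Fin.castAdd l i))) i' hv, zero_mul, mul_zero]
    | right j' => rw [hb.2 z hz (fun j => v (σ (Fin.natAdd k j))) j' hv, mul_zero, mul_zero]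

end Pool.Agent.SIU.H18
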