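import Pool.Agent.Helper15_SIU.Stmts

/-!
# SIU, module WON: exterior multiplication by a covector
-/

set_option autoImplicit false

namespace Pool.Agent.SIU.H18

open Pool.Agent.SIU

section

variable {N k : ℕ}

theorem w1_apply (c : (Fin N → ℂ) →L[ℝ] ℝ) (a : Alt N k) (v : Fin (k + 1) → Fin N → ℂ) :
    w1 c a v = ∑ i : Fin (k + 1), (-1 : ℝ) ^ (i : ℕ) * (c (v i) * a (i.removeNth v)) := by
  unfold w1
  rw [ContinuousAlternatingMap.alternatizeUncurryFin_apply]
  refine Finset.sum_congr rfl fun i _ => ?_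
  rw [ContinuousLinearMap.smulRight_apply, ContinuousAlternatingMap.smul_apply, smul_eq_mul,
    zsmul_eq_mul]
  push_cast
  rfl

theorem w1_add_left (c c' : (Fin N → ℂ) →L[ℝ] ℝ) (a : Alt N k) :
    w1 (c + c') a = w1 c a + w1 c' a := by
  ext v
  rw [ContinuousAlternatingMap.add_apply, w1_apply, w1_apply, w1_apply, ← Finset.sum_add_distrib]
  refine Finset.sum_congr rfl fun i _ => ?_
  rw [ContinuousLinearMap.add_apply]
  ring

theorem w1_add_right (c : (Fin N → ℂ) →L[ℝ] ℝ) (a a' : Alt N k) :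
    w1 c (a + a') = w1 c a + w1 c a' := by
  ext v
  rw [ContinuousAlternatingMap.add_apply, w1_apply, w1_apply, w1_apply, ← Finset.sum_add_distrib]
  refine Finset.sum_congr rfl fun i _ => ?_
  rw [ContinuousAlternatingMap.add_apply]
  ring

theorem w1_smul_left (t : ℝ) (c : (Fin N → ℂ) →L[ℝ] ℝ) (a : Alt N k) :
    w1 (t • c) a = t • w1 c a := by
  ext v
  rw [ContinuousAlternatingMap.smul_apply, w1_apply, w1_apply, smul_eq_mul, Finset.mul_sum]
  refine Finset.sum_congr rfl fun i _ => ?_
  rw [ContinuousLinearMap.smul_apply, smul_eq_mul]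
  ring

theorem w1_smul_right (t : ℝ) (c : (Fin N → ℂ) →L[ℝ] ℝ) (a : Alt N k) :
    w1 c (t • a) = t • w1 c a := by
  ext v
  rw [ContinuousAlternatingMap.smul_apply, w1_apply, w1_apply, smul_eq_mul, Finset.mul_sum]
  refine Finset.sum_congr rfl fun i _ => ?_
  rw [ContinuousAlternatingMap.smul_apply, smul_eq_mul]
  ring

theorem w1_bound (c : (Fin N → ℂ) →L[ℝ] ℝ) (a : Alt N k) :
    ‖w1 c a‖ ≤ (k + 1) * (‖c‖ * ‖a‖) := by
  have h := ContinuousAlternatingMap.norm_alternatizeUncurryFin_le (c.smulRight a)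
  rwa [ContinuousLinearMap.norm_smulRight_apply] at h

theorem w1_bilin : IsBoundedBilinearMap ℝ
    (fun p : ((Fin N → ℂ) →L[ℝ] ℝ) × Alt N k => w1 p.1 p.2) where
  add_left := w1_add_left
  smul_left := w1_smul_left
  add_right := w1_add_right
  smul_right := fun t a b => w1_smul_right t a b
  bound := ⟨(k : ℝ) + 1, by positivity, fun c a => by
    rw [mul_assoc]
    exact w1_bound c a⟩

theorem w1_self (c : (Fin N → ℂ) →L[ℝ] ℝ) (a : Alt N k) : w1 c (w1 c a) = 0 := by
  have h := ContinuousAlternatingMap.alternatizeUncurryFin_alternatizeUncurryFinCLM_comp_of_symmetric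
    (f := c.smulRight (c.smulRight a)) (by
      intro x y
      show c x • (c y • a) = c y • (c x • a)
      rw [smul_smul, smul_smul, mul_comm])
  rw [← h]
  unfold w1
  congr 1
  ext x v
  rw [ContinuousLinearMap.comp_apply, ContinuousLinearMap.smulRight_apply,
    ContinuousLinearMap.smulRight_apply, map_smul]
  rfl

theorem w1_anti (b c : (Fin N → ℂ) →L[ℝ] ℝ) (a : Alt N k) :
    w1 b (w1 c a) = - w1 c (w1 b a) := by
  have h := w1_self (b + c) a
  rw [w1_add_left, w1_add_left b c a, w1_add_right, w1_add_right, w1_self, w1_self, zero_add,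
    add_zero] at h
  exact eq_neg_of_add_eq_zero_left h

end

/-- module WON -/
theorem won : WonStmt := by
  intro N k
  refine ⟨w1_add_left, w1_add_right, fun t c a => ⟨w1_smul_left t c a, w1_smul_right t c a⟩,
    fun n L c a => ?_, w1_anti, w1_bound, fun m => w1_bilin.contDiff, fun c a v₀ ha => ⟨fun v => ?_,
    fun hc v i hv => ?_⟩, fun r n X V c a hc1 hc2 ha => ⟨fun z hz g hg v => ?_,
    fun z hz v i hv => ?_⟩⟩
  · ext v
    rw [ContinuousAlternatingMap.compContinuousLinearMap_apply, w1_apply, w1_apply]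
    rfl
  · rw [w1_apply, Fin.sum_univ_succ, Finset.sum_eq_zero]
    · have h : (0 : Fin (k + 1)).removeNth (Matrix.vecCons v₀ v) = v := by
        funext j
        rfl
      rw [h]
      simp
    · intro j _
      obtain ⟨k', rfl⟩ : ∃ k', k = k' + 1 := ⟨k - 1, by have := j.pos; omega⟩
      rw [ha _ 0 (by simp [Fin.removeNth]), mul_zero, mul_zero]
  · rw [w1_apply, Finset.sum_eq_zero]
    intro j _
    by_cases hj : i = j
    · rw [← hj, hv, hc, zero_mul, mul_zero]
    · obtain ⟨i', hi'⟩ := Fin.exists_succAbove_eq hj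
      rw [ha (j.removeNth v) i' (by rw [Fin.removeNth, hi', hv]), mul_zero, mul_zero]
  · simp only [w1_apply]
    refine Finset.sum_congr rfl fun i _ => ?_
    rw [hc1 z hz g hg]
    congr 2
    exact ha.1 z hz g hg (i.removeNth v)
  · show w1 (c z) (a z) v = 0
    rw [w1_apply, Finset.sum_eq_zero]
    intro j _
    by_cases hj : i = j
    · rw [← hj, hc2 z hz _ hv, zero_mul, mul_zero]
    · obtain ⟨i', hi'⟩ := Fin.exists_succAbove_eq hj
      rw [ha.2 z hz (j.removeNth v) i' (by rw [Fin.removeNth, hi']; exact hv), mul_zero, mul_zero]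

end Pool.Agent.SIU.H18
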